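import Pool.Agent.Helper55.RT.Spec

/-!
# Common lemmas for the parts IRD and IDP of the THIN project
-/

set_option autoImplicit false
set_option linter.all false

open Polynomial

namespace Pool.Agent.Helper3.Thin

open Pool.Agent.Helper55.RT

section

variable {k k' : Type} [Field k] [CharZero k] [Field k'] [Algebra k k'] [IsSepClosure k k']

lemma sepcl_int (κ : IntermediateField k k') : IsSepClosure κ k' := by
  haveI : IsSepClosed k' := IsSepClosure.sep_closed k
  haveI : Algebra.IsSeparable κ k' := Algebra.isSeparable_tower_top_of_isSeparable k κ k'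
  exact ⟨inferInstance, inferInstance⟩

lemma theta_inj {n : ℕ} {D : k[X]} {θ : Fin n → k'} (hD : Irreducible D)
    (hθ : D.map (algebraMap k k') = ∏ i, (X - C (θ i))) : Function.Injective θ := by
  have hsep : (D.map (algebraMap k k')).Separable := hD.separable.map
  rw [hθ] at hsep
  exact Polynomial.separable_prod_X_sub_C_iff.1 hsep

lemma theta_root {n : ℕ} {D : k[X]} {θ : Fin n → k'}
    (hθ : D.map (algebraMap k k') = ∏ i, (X - C (θ i))) (i : Fin n) : aeval (θ i) D = 0 := by
  rw [← eval_map_algebraMap, hθ, eval_prod]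
  exact Finset.prod_eq_zero (Finset.mem_univ i) (by simp)

lemma root_theta {n : ℕ} {D : k[X]} {θ : Fin n → k'}
    (hθ : D.map (algebraMap k k') = ∏ i, (X - C (θ i))) {x : k'} (hx : aeval x D = 0) :
    ∃ i, x = θ i := by
  rw [← eval_map_algebraMap, hθ, eval_prod, Finset.prod_eq_zero_iff] at hx
  obtain ⟨i, -, hi⟩ := hx
  exact ⟨i, by simpa [sub_eq_zero] using hi⟩

lemma exists_notMem {n : ℕ} (T : Finset (Fin n)) (h : T.card < n) : ∃ l, l ∉ T := by
  by_contra hc
  push Not at hc
  have h1 : T = Finset.univ := Finset.eq_univ_iff_forall.2 hc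
  rw [h1, Finset.card_univ, Fintype.card_fin] at h
  exact lt_irrefl _ h

/-- an even permutation which moves `j` to `i` and has a fixed point -/
lemma exists_even {n : ℕ} (hn : 5 ≤ n) (i j : Fin n) :
    ∃ π ∈ alternatingGroup (Fin n), π j = i ∧ ∃ m, π m = m := by
  by_cases hij : i = j
  · exact ⟨1, one_mem _, by simp [hij], i, rfl⟩
  · obtain ⟨l, hl⟩ := exists_notMem ({i, j} : Finset (Fin n))
      (lt_of_le_of_lt Finset.card_le_two (by omega))
    obtain ⟨m, hm⟩ := exists_notMem ({i, j, l} : Finset (Fin n))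
      (lt_of_le_of_lt Finset.card_le_three (by omega))
    simp only [Finset.mem_insert, Finset.mem_singleton, not_or] at hl hm
    refine ⟨Equiv.swap j l * Equiv.swap i j, ?_, ?_, m, ?_⟩
    · rw [Equiv.Perm.mem_alternatingGroup, Equiv.Perm.sign_mul,
        Equiv.Perm.sign_swap (Ne.symm hl.2), Equiv.Perm.sign_swap hij]
      rfl
    · rw [Equiv.Perm.mul_apply, Equiv.swap_apply_right,
        Equiv.swap_apply_of_ne_of_ne hij (Ne.symm hl.1)]
    · rw [Equiv.Perm.mul_apply, Equiv.swap_apply_of_ne_of_ne hm.1 hm.2.1,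
        Equiv.swap_apply_of_ne_of_ne hm.2.1 hm.2.2]

end

end Pool.Agent.Helper3.Thin
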