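import Pool.Agent.Helper3.Thin.Base

/-!
# Part IDP of the THIN project
-/

set_option autoImplicit false
set_option linter.all false

open Polynomial

namespace Pool.Agent.Helper3.Thin.IDP

open Pool.Agent.Helper55.RT Pool.Agent.Helper55.RL Pool.Agent.Helper55.RG

section

variable {k k' : Type} [Field k] [CharZero k] [Field k'] [Algebra k k'] [IsSepClosure k k']

lemma ev2_pow_sub {κ₀ : IntermediateField k k'} (p : ℕ) (S : κ₀[X]) (t b : k') :
    ev2 (algebraMap κ₀ k') t b (X ^ p - C S) = b ^ p - aeval t S := by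
  unfold ev2
  rw [eval₂_sub, eval₂_pow, eval₂_X, eval₂_C]
  rfl

/-- the polynomial `S` has coefficients in `κ₀` -/
lemma descend {p : ℕ} (κ₀ κ : IntermediateField k k') (h : κ₀ ≤ κ) (s : k[X])
    (hs : ∀ r : k', aeval r s = 0 → r ∈ κ₀) (S : κ[X]) (hS : S.Monic)
    (hSpf : ∀ q : κ[X], Irreducible q → ¬ q ^ p ∣ S) (hSs : S ∣ (s.map (algebraMap k κ)) ^ (p - 1)) :
    ∃ S₀ : κ₀[X], S₀.Monic ∧ S₀.map (algebraMap κ₀ k') = S.map (algebraMap κ k') ∧
      S₀ ∣ (s.map (algebraMap k κ₀)) ^ (p - 1) ∧ (∀ q : κ₀[X], Irreducible q → ¬ q ^ p ∣ S₀) := by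
  haveI : IsSepClosed k' := IsSepClosure.sep_closed k
  haveI : CharZero k' := charZero_of_injective_algebraMap (algebraMap k k').injective
  haveI : IsAlgClosed k' := IsSepClosed.isAlgClosed_of_perfectField k'
  have hS' : (S.map (algebraMap κ k')).Monic := hS.map _
  have hspl : (S.map (algebraMap κ k')).Splits := IsAlgClosed.splits _
  have hmem : S.map (algebraMap κ k') ∈ Polynomial.lifts (algebraMap κ₀ k') := by
    apply hspl.mem_lift_of_roots_mem_range hS'
    intro r hr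
    rw [mem_roots hS'.ne_zero, IsRoot.def, eval_map_algebraMap] at hr
    have h1 : aeval r (s.map (algebraMap k κ) ^ (p - 1)) = 0 := by
      obtain ⟨c, hc⟩ := hSs
      rw [hc, map_mul, hr, zero_mul]
    rw [map_pow, aeval_map_algebraMap] at h1
    have h2 : aeval r s = 0 := by
      by_contra hc
      exact pow_ne_zero _ hc h1
    exact ⟨⟨r, hs r h2⟩, rfl⟩
  obtain ⟨S₀, hS₀⟩ := (Polynomial.mem_lifts _).1 hmem
  have hm : S₀.Monic := by
    rw [← hS₀] at hS'
    exact Polynomial.monic_of_injective (algebraMap κ₀ k').injective hS'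
  refine ⟨S₀, hm, hS₀, ?_, ?_⟩
  · rw [← Polynomial.map_dvd_map' (algebraMap κ₀ k'), hS₀, Polynomial.map_pow, Polynomial.map_map,
      ← IsScalarTower.algebraMap_eq]
    have h1 := (Polynomial.map_dvd_map' (algebraMap κ k')).2 hSs
    rwa [Polynomial.map_pow, Polynomial.map_map, ← IsScalarTower.algebraMap_eq] at h1
  · intro q hq hqS
    have hSS : S₀.map (IntermediateField.inclusion h : κ₀ →+* κ) = S := by
      apply Polynomial.map_injective _ (algebraMap κ k').injective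
      rw [Polynomial.map_map, ← hS₀]
      rfl
    have hq0 : q.map (IntermediateField.inclusion h : κ₀ →+* κ) ≠ 0 :=
      (Polynomial.map_ne_zero_iff (RingHom.injective _)).2 hq.ne_zero
    have hqu : ¬ IsUnit (q.map (IntermediateField.inclusion h : κ₀ →+* κ)) := by
      intro hu
      apply hq.not_isUnit
      rw [Polynomial.isUnit_iff_degree_eq_zero] at hu ⊢
      rwa [Polynomial.degree_map] at hu
    obtain ⟨q', hq', hq'q⟩ := WfDvdMonoid.exists_irreducible_factor hqu hq0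
    apply hSpf q' hq'
    rw [← hSS]
    refine (pow_dvd_pow_of_dvd hq'q p).trans ?_
    rw [← Polynomial.map_pow]
    exact Polynomial.map_dvd _ hqS

end

theorem main : Q_IDP := by
  intro p _ k k' _ _ _ _ _ κ₀ κ _ hκ hμ n D θ hn hD hθ hA s hs0 hsr hsθ hW
  intro u S hu hS hSpf hSs hDS hsq
  obtain ⟨z, hz⟩ := hsq
  have hp : p.Prime := Fact.out
  haveI : IsSepClosed k' := IsSepClosure.sep_closed k
  haveI : CharZero k' := charZero_of_injective_algebraMap (algebraMap k k').injective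
  haveI : IsAlgClosed k' := IsSepClosed.isAlgClosed_of_perfectField k'
  haveI : IsSepClosure κ k' := sepcl_int κ
  haveI : IsGalois κ k' := inferInstance
  haveI : NeZero (p : k') := ⟨by exact_mod_cast hp.ne_zero⟩
  have hinj := theta_inj hD hθ
  -- values
  set y : Fin n → k' := fun l => aeval (θ l) z with hy
  have hyp : ∀ l, y l ^ p = algebraMap κ k' u * aeval (θ l) S := by
    intro l
    obtain ⟨c, hc⟩ := hz
    have h1 : aeval (θ l) (z ^ p - C u * S) = 0 := by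
      rw [hc, map_mul, aeval_map_algebraMap, theta_root hθ, zero_mul]
    rw [map_sub, map_pow, map_mul, aeval_C, sub_eq_zero] at h1
    exact h1
  have hSθ : ∀ l, aeval (θ l) S ≠ 0 := by
    intro l h0
    obtain ⟨c, hc⟩ := hSs
    have h1 : aeval (θ l) (s.map (algebraMap k κ) ^ (p - 1)) = 0 := by
      rw [hc, map_mul, h0, zero_mul]
    rw [map_pow, aeval_map_algebraMap] at h1
    exact pow_ne_zero _ (hsθ l) h1
  have hu' : algebraMap κ k' u ≠ 0 := by
    rw [Ne, map_eq_zero]; exact hu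
  have hy0 : ∀ l, y l ≠ 0 := by
    intro l h0
    have h1 := hyp l
    rw [h0, zero_pow hp.ne_zero] at h1
    exact mul_ne_zero hu' (hSθ l) h1.symm
  have hνy : ∀ (ν : k' ≃ₐ[κ] k') (l m : Fin n), ν (θ l) = θ m → ν (y l) = y m := by
    intro ν l m h
    have h5 : aeval (ν (θ l)) z = ν (aeval (θ l) z) :=
      Polynomial.aeval_algHom_apply ν.toAlgHom _ _
    simp only [hy]
    rw [← h5, h]
  have hνS : ∀ (ν : k' ≃ₐ[κ] k') (l m : Fin n), ν (θ l) = θ m →
      ν (aeval (θ l) S) = aeval (θ m) S := by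
    intro ν l m h
    have h5 : aeval (ν (θ l)) S = ν (aeval (θ l) S) :=
      Polynomial.aeval_algHom_apply ν.toAlgHom _ _
    rw [← h5, h]
  have hμκ : ∀ ζ : k', ζ ^ p = 1 → ζ ∈ κ := fun ζ h => hκ (hμ ζ h)
  have hνμ : ∀ (ν : k' ≃ₐ[κ] k') (ζ : k'), ζ ^ p = 1 → ν ζ = ζ := by
    intro ν ζ h
    exact ν.commutes ⟨ζ, hμκ ζ h⟩
  -- quotients of two elements with the same `p`-th power
  have hquot : ∀ a b : k', b ≠ 0 → a ^ p = b ^ p → ∃ ε : k', ε ^ p = 1 ∧ a = ε * b := by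
    intro a b hb h
    refine ⟨a / b, ?_, ?_⟩
    · rw [div_pow, h, div_self (pow_ne_zero _ hb)]
    · rw [div_mul_cancel₀ _ hb]
  by_cases hS1 : S = 1
  · -- case (b)
    refine ⟨hS1, ?_⟩
    set i0 : Fin n := ⟨0, by omega⟩ with hi0
    have hyu : ∀ l, y l ^ p = algebraMap κ k' u := by
      intro l
      rw [hyp l, hS1, map_one, mul_one]
    have hfix1 : ∀ (ν : k' ≃ₐ[κ] k') (l : Fin n), ν (θ l) = θ l → ν (y i0) = y i0 := by
      intro ν l h
      obtain ⟨ε, hε, hε2⟩ := hquot (y i0) (y l) (hy0 l) (by rw [hyu, hyu])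
      rw [hε2, map_mul, hνμ ν ε hε, hνy ν l l h]
    have hfix : ∀ ν : k' ≃ₐ[κ] k', ν (y i0) = y i0 := by
      intro ν
      obtain ⟨j, hj⟩ : ∃ j, ν (θ i0) = θ j := by
        apply root_theta hθ
        have h5 : aeval (ν (θ i0)) (D.map (algebraMap k κ)) =
            ν (aeval (θ i0) (D.map (algebraMap k κ))) :=
          Polynomial.aeval_algHom_apply ν.toAlgHom _ _
        rw [aeval_map_algebraMap, aeval_map_algebraMap, theta_root hθ, map_zero] at h5
        exact h5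
      obtain ⟨π, hπ, h1, m, hm⟩ := exists_even hn i0 j
      obtain ⟨ν₁, hν₁⟩ := hA π hπ
      have h2 : ν₁ (y i0) = y i0 := hfix1 ν₁ m (by rw [hν₁, hm])
      have h3 : (ν₁ * ν) (y i0) = y i0 := by
        apply hfix1 (ν₁ * ν) i0
        rw [AlgEquiv.mul_apply, hj, hν₁, h1]
      rw [AlgEquiv.mul_apply] at h3
      apply ν₁.injective
      rw [h3, h2]
    obtain ⟨v, hv⟩ := (InfiniteGalois.mem_range_algebraMap_iff_fixed (k := κ) (y i0)).2 hfix
    refine ⟨v, ?_⟩
    apply (algebraMap κ k').injective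
    rw [map_pow, hv, hyu]
  · -- case (a)
    exfalso
    obtain ⟨S₀, hS₀m, hS₀S, hS₀s, hS₀pf⟩ := descend (p := p) κ₀ κ hκ s hsr S hS hSpf hSs
    have hS₀1 : S₀ ≠ 1 := by
      rintro rfl
      apply hS1
      apply Polynomial.map_injective _ (algebraMap κ k').injective
      rw [← hS₀S, Polynomial.map_one, Polynomial.map_one]
    have hWr := hW S₀ hS₀m hS₀s hS₀pf hS₀1
    have hSS : ∀ t : k', aeval t S₀ = aeval t S := by
      intro t
      rw [← eval_map_algebraMap, ← eval_map_algebraMap, hS₀S]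
    obtain ⟨w, hw⟩ : ∃ w : Fin n → k', ∀ l, w l ^ p = aeval (θ l) S := by
      choose w hw using fun l => IsAlgClosed.exists_pow_nat_eq (aeval (θ l) S) hp.pos
      exact ⟨w, hw⟩
    have hw0 : ∀ l, w l ≠ 0 := by
      intro l h0
      apply hSθ l
      rw [← hw l, h0, zero_pow hp.ne_zero]
    obtain ⟨ζ, hζ⟩ := HasEnoughRootsOfUnity.exists_primitiveRoot k' p
    have hζp : ζ ^ p = 1 := hζ.pow_eq_one
    have hζ1 : ζ ≠ 1 := hζ.ne_one hp.one_lt
    have hζ0 : ζ ≠ 0 := hζ.ne_zero hp.ne_zero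
    set i0 : Fin n := ⟨0, by omega⟩ with hi0
    set i1 : Fin n := ⟨1, by omega⟩ with hi1
    set i2 : Fin n := ⟨2, by omega⟩ with hi2
    set i3 : Fin n := ⟨3, by omega⟩ with hi3
    have h01 : i0 ≠ i1 := by simp [hi0, hi1]
    have h02 : i0 ≠ i2 := by simp [hi0, hi2]
    have h12 : i1 ≠ i2 := by simp [hi1, hi2]
    have h30 : i3 ≠ i0 := by simp [hi0, hi3]
    have h31 : i3 ≠ i1 := by simp [hi1, hi3]
    have h32 : i3 ≠ i2 := by simp [hi2, hi3]
    obtain ⟨ν, hν⟩ := hA (Equiv.swap i0 i1 * Equiv.swap i1 i2) (by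
      rw [Equiv.Perm.mem_alternatingGroup, Equiv.Perm.sign_mul, Equiv.Perm.sign_swap h01,
        Equiv.Perm.sign_swap h12]
      rfl)
    have hπ2 : (Equiv.swap i0 i1 * Equiv.swap i1 i2) i2 = i0 := by
      rw [Equiv.Perm.mul_apply, Equiv.swap_apply_right, Equiv.swap_apply_right]
    have hπ3 : (Equiv.swap i0 i1 * Equiv.swap i1 i2) i3 = i3 := by
      rw [Equiv.Perm.mul_apply, Equiv.swap_apply_of_ne_of_ne h31 h32,
        Equiv.swap_apply_of_ne_of_ne h30 h31]
    have hν2 : ν (θ i2) = θ i0 := by rw [hν, hπ2]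
    have hν3 : ν (θ i3) = θ i3 := by rw [hν, hπ3]
    -- the automorphism over `κ₀`
    obtain ⟨h, hhθ, hh0, hh2⟩ := hWr θ θ hθ hθ i0 i2 h02 (w i0) (w i2) (ζ * w i0) (w i2)
      (by rw [ev2_pow_sub, hSS, hw, sub_self]) (by rw [ev2_pow_sub, hSS, hw, sub_self])
      (by rw [ev2_pow_sub, hSS, mul_pow, hζp, one_mul, hw, sub_self])
      (by rw [ev2_pow_sub, hSS, hw, sub_self])
    have hhμ : ∀ ζ : k', ζ ^ p = 1 → h ζ = ζ := by
      intro ζ hζ
      exact h.commutes ⟨ζ, hμ ζ hζ⟩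
    have hsμ : ∀ ζ : k', ζ ^ p = 1 → h.symm ζ = ζ := by
      intro ζ hζ
      rw [AlgEquiv.symm_apply_eq, hhμ ζ hζ]
    have hnμ : ∀ ζ : k', ζ ^ p = 1 → ν.symm ζ = ζ := by
      intro ζ hζ
      rw [AlgEquiv.symm_apply_eq, hνμ ν ζ hζ]
    have hhκ : ∀ x ∈ κ, h.symm x ∈ κ := by
      intro x hx
      have h1 : κ.map ((h.symm.restrictScalars k : k' ≃ₐ[k] k') : k' →ₐ[k] k') ≤ κ :=
        IntermediateField.normal_iff_forall_map_le'.1 inferInstance (h.symm.restrictScalars k)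
      apply h1
      exact ⟨x, hx, rfl⟩
    -- the commutator
    let c : k' → k' := fun x => ν (h (ν.symm (h.symm x)))
    have hcκ : ∀ x ∈ κ, c x = x := by
      intro x hx
      show ν (h (ν.symm (h.symm x))) = x
      have h1 : ν.symm (h.symm x) = h.symm x := ν.symm.commutes ⟨h.symm x, hhκ x hx⟩
      rw [h1, AlgEquiv.apply_symm_apply]
      exact ν.commutes ⟨x, hx⟩
    let cR : k' →+* k' := ((ν : k' →+* k').comp (h : k' →+* k')).comp
      ((ν.symm : k' →+* k').comp (h.symm : k' →+* k'))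
    let cA : k' →ₐ[κ] k' := { cR with commutes' := fun x => hcκ x x.2 }
    have hcA : ∀ x, cA x = ν (h (ν.symm (h.symm x))) := fun x => rfl
    have hsθ' : ∀ l, h.symm (θ l) = θ l := by
      intro l
      rw [AlgEquiv.symm_apply_eq, hhθ]
    have hcθ : ∀ l m, ν (θ m) = θ l → cA (θ l) = θ l := by
      intro l m hlm
      have h1 : ν.symm (θ l) = θ m := by rw [AlgEquiv.symm_apply_eq, hlm]
      rw [hcA, hsθ', h1, hhθ, hlm]
    have hcy : ∀ l m, ν (θ m) = θ l → cA (y l) = y l := by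
      intro l m hlm
      have h5 : aeval (cA (θ l)) z = cA (aeval (θ l) z) := Polynomial.aeval_algHom_apply cA _ _
      simp only [hy]
      rw [← h5, hcθ l m hlm]
    have hcμ : ∀ ε : k', ε ^ p = 1 → cA ε = ε := by
      intro ε hε
      exact cA.commutes ⟨ε, hμκ ε hε⟩
    -- `c (w 0) = ζ⁻¹ w 0`
    have hsw0 : h.symm (w i0) = ζ⁻¹ * w i0 := by
      rw [AlgEquiv.symm_apply_eq, map_mul, hh0, map_inv₀, hhμ ζ hζp, ← mul_assoc,
        inv_mul_cancel₀ hζ0, one_mul]
    have hζi : (ζ⁻¹) ^ p = 1 := by rw [inv_pow, hζp, inv_one]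
    have hcw0 : cA (w i0) = ζ⁻¹ * w i0 := by
      have h1 : (ν.symm (w i0)) ^ p = (w i2) ^ p := by
        rw [← map_pow, hw, hw, AlgEquiv.symm_apply_eq]
        exact (hνS ν i2 i0 hν2).symm
      obtain ⟨η, hη, hη2⟩ := hquot _ _ (hw0 i2) h1
      rw [hcA, hsw0, map_mul ν.symm, hnμ _ hζi, hη2, map_mul h, map_mul h, hhμ _ hζi, hhμ _ hη, hh2,
        map_mul ν, hνμ _ _ hζi, ← hη2, AlgEquiv.apply_symm_apply]
    have hcw3 : cA (w i3) = w i3 := by
      have h1 : (h (w i3)) ^ p = (w i3) ^ p := by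
        rw [← map_pow, hw, ← hSS]
        have h5 : aeval (h (θ i3)) S₀ = h (aeval (θ i3) S₀) :=
          Polynomial.aeval_algHom_apply h.toAlgHom _ _
        rw [← h5, hhθ]
      obtain ⟨η, hη, hη2⟩ := hquot _ _ (hw0 i3) h1
      have h2 : (ν (w i3)) ^ p = (w i3) ^ p := by
        rw [← map_pow, hw]
        exact hνS ν i3 i3 hν3
      obtain ⟨η', hη', hη'2⟩ := hquot _ _ (hw0 i3) h2
      have hη0 : η ≠ 0 := by
        rintro rfl
        rw [zero_pow hp.ne_zero] at hη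
        exact zero_ne_one hη
      have hη'0 : η' ≠ 0 := by
        rintro rfl
        rw [zero_pow hp.ne_zero] at hη'
        exact zero_ne_one hη'
      have hηi : (η⁻¹) ^ p = 1 := by rw [inv_pow, hη, inv_one]
      have hη'i : (η'⁻¹) ^ p = 1 := by rw [inv_pow, hη', inv_one]
      have h3 : h.symm (w i3) = η⁻¹ * w i3 := by
        rw [AlgEquiv.symm_apply_eq, map_mul, hη2, hhμ _ hηi, ← mul_assoc, inv_mul_cancel₀ hη0,
          one_mul]
      have h4 : ν.symm (w i3) = η'⁻¹ * w i3 := by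
        rw [AlgEquiv.symm_apply_eq, map_mul, hη'2, hνμ _ _ hη'i, ← mul_assoc,
          inv_mul_cancel₀ hη'0, one_mul]
      rw [hcA, h3, map_mul ν.symm, hnμ _ hηi, h4, map_mul h, map_mul h, hhμ _ hηi, hhμ _ hη'i, hη2,
        map_mul ν, map_mul ν, map_mul ν, hνμ _ _ hηi, hνμ _ _ hη'i, hνμ _ _ hη, hη'2]
      field_simp
    -- the contradiction
    have hm0 : ν (θ i2) = θ i0 := hν2
    have hcy0 := hcy i0 i2 hν2
    have hcy3 := hcy i3 i3 hν3
    have h1 : (w i0 * y i3) ^ p = (w i3 * y i0) ^ p := by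
      rw [mul_pow, mul_pow, hw, hw, hyp, hyp]; ring
    obtain ⟨ε, hε, hε2⟩ := hquot _ _ (mul_ne_zero (hw0 i3) (hy0 i0)) h1
    have h2 : cA (w i0 * y i3) = cA (ε * (w i3 * y i0)) := by rw [hε2]
    rw [map_mul, map_mul, map_mul, hcw0, hcy3, hcμ ε hε, hcw3, hcy0, ← hε2, mul_assoc] at h2
    have h3 : ζ⁻¹ = 1 := by
      have h4 : ζ⁻¹ * (w i0 * y i3) = 1 * (w i0 * y i3) := by rw [h2, one_mul]
      exact mul_right_cancel₀ (mul_ne_zero (hw0 i0) (hy0 i3)) h4
    exact hζ1 (inv_eq_one.1 h3)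

end Pool.Agent.Helper3.Thin.IDP
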