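import Pool.Agent.Helper3.Thin.Base

/-!
# Part IRD of the THIN project
-/

set_option autoImplicit false
set_option linter.all false

open Polynomial

namespace Pool.Agent.Helper3.Thin.IRD

open Pool.Agent.Helper55.RT

theorem main : Q_IRD := by
  intro k k' _ _ _ _ _ κ n D θ hn hD hθ hA
  haveI : IsSepClosure κ k' := sepcl_int κ
  haveI : IsGalois κ k' := inferInstance
  set i0 : Fin n := ⟨0, by omega⟩
  have hint : IsIntegral κ (θ i0) := Algebra.IsIntegral.isIntegral _
  have hmirr := minpoly.irreducible hint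
  have hm0 : minpoly κ (θ i0) ≠ 0 := minpoly.ne_zero hint
  have hdvd : minpoly κ (θ i0) ∣ D.map (algebraMap k κ) := by
    apply minpoly.dvd
    rw [aeval_map_algebraMap, theta_root hθ]
  have hD0 : D.map (algebraMap k κ) ≠ 0 :=
    (Polynomial.map_ne_zero_iff (algebraMap k κ).injective).2 hD.ne_zero
  have hroot : ∀ j, aeval (θ j) (minpoly κ (θ i0)) = 0 := by
    intro j
    obtain ⟨π, hπ, h1, -⟩ := exists_even hn j i0
    obtain ⟨ν, hν⟩ := hA π hπ
    have h2 : ν (θ i0) = θ j := by rw [hν, h1]
    rw [← h2]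
    have h5 : aeval (ν (θ i0)) (minpoly κ (θ i0)) = ν (aeval (θ i0) (minpoly κ (θ i0))) :=
      Polynomial.aeval_algHom_apply ν.toAlgHom _ _
    rw [h5, minpoly.aeval, map_zero]
  have hdeg : D.natDegree ≤ (minpoly κ (θ i0)).natDegree := by
    have h1 : (∏ i, (X - C (θ i))) ∣ (minpoly κ (θ i0)).map (algebraMap κ k') := by
      apply Finset.prod_dvd_of_coprime
      · intro i _ j _ hij
        exact Polynomial.pairwise_coprime_X_sub_C (theta_inj hD hθ) hij
      · intro i _
        rw [Polynomial.dvd_iff_isRoot, IsRoot.def, eval_map_algebraMap]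
        exact hroot i
    rw [← hθ] at h1
    have h2 := Polynomial.natDegree_le_of_dvd h1
      ((Polynomial.map_ne_zero_iff (algebraMap κ k').injective).2 hm0)
    rwa [natDegree_map, natDegree_map] at h2
  obtain ⟨c, hc⟩ := hdvd
  have hc0 : c ≠ 0 := by
    rintro rfl
    rw [mul_zero] at hc
    exact hD0 hc
  have hdeg2 : (D.map (algebraMap k κ)).natDegree = (minpoly κ (θ i0)).natDegree + c.natDegree := by
    rw [hc, natDegree_mul hm0 hc0]
  rw [natDegree_map] at hdeg2
  have hcd : c.natDegree = 0 := by omega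
  have hcu : IsUnit c := by
    rw [Polynomial.isUnit_iff_degree_eq_zero, Polynomial.degree_eq_natDegree hc0, hcd]
    rfl
  rw [hc]
  exact (irreducible_mul_isUnit hcu).2 hmirr

end Pool.Agent.Helper3.Thin.IRD
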